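import Pool.Agent.H487R3.Cau.Stmts

set_option autoImplicit false

namespace Pool.Agent.H87R3.Cau

open Pool.Agent.H487R3.Cau

theorem sum_inj {g : ℤ → ℝ} (hg : Summable g) (h0 : ∀ k, 0 ≤ g k) (s : Finset ℕ) (φ : ℕ → ℤ)
    (hφ : Function.Injective φ) : ∑ x ∈ s, g (φ x) ≤ ∑' k, g k := by
  have h := hg.sum_le_tsum (s.map ⟨φ, hφ⟩) (fun k _ => h0 k)
  rwa [Finset.sum_map] at h

theorem dk_nonneg (k : ℤ) : 0 ≤ dk k := by
  unfold dk
  positivity

theorem dk_summable : Summable dk := by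
  have h1 : Summable (fun n : ℤ => |(n : ℝ)| ^ (-(5 / 4) : ℝ)) :=
    Real.summable_abs_int_rpow (by norm_num)
  have h2 : Summable (fun n : ℤ => if n = 0 then (1 : ℝ) else 0) :=
    (hasSum_ite_eq (0 : ℤ) (1 : ℝ)).summable
  refine Summable.of_nonneg_of_le dk_nonneg (fun n => ?_) (h1.add h2)
  unfold dk
  by_cases hn : n = 0
  · subst hn
    simp
  · rw [if_neg hn, add_zero]
    have h3 : 0 < |(n : ℝ)| := by
      rw [abs_pos]
      exact_mod_cast hn
    apply Real.rpow_le_rpow_of_nonpos h3 (by linarith) (by norm_num)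

/-- the ratio -/
noncomputable def r : ℝ := (2 : ℝ) ^ (-(1 / 4) : ℝ)

theorem r_pos : 0 < r := by unfold r; positivity

theorem r_lt : r < 1 := by
  unfold r
  apply Real.rpow_lt_one_of_one_lt_of_neg <;> norm_num

theorem geo (n m : ℕ) (h : n ≤ m) : (2 : ℝ) ^ (-(((m : ℝ) - n) / 4)) = r ^ (m - n) := by
  unfold r
  rw [← Real.rpow_natCast, ← Real.rpow_mul (by norm_num), Nat.cast_sub h]
  congr 1
  ring

/-- the geometric function on the integers -/
noncomputable def gg (k : ℤ) : ℝ := r ^ k.natAbs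

theorem gg_nonneg (k : ℤ) : 0 ≤ gg k := by
  have := r_pos
  unfold gg
  positivity

theorem gg_summable : Summable gg := by
  have h := summable_geometric_of_lt_one r_pos.le r_lt
  apply Summable.of_nat_of_neg
  · simpa [gg] using h
  · simpa [gg] using h

/-- the sum of the decay function -/
noncomputable def SS : ℝ := ∑' k, dk k

theorem SS_nonneg : 0 ≤ SS := tsum_nonneg dk_nonneg

theorem row1 (n i m : ℕ) (h : n ≤ m) (s : Finset ℕ) :
    ∑ j ∈ s, ub n i m j ≤ gg ((m : ℤ) - n) * (3 * SS) := by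
  unfold ub
  rw [← Finset.mul_sum, geo n m h]
  have e : gg ((m : ℤ) - n) = r ^ (m - n) := by
    unfold gg
    congr 1
    omega
  rw [e]
  apply mul_le_mul_of_nonneg_left _ (pow_nonneg r_pos.le _)
  rw [Finset.sum_add_distrib, Finset.sum_add_distrib]
  have h1 : ∀ c : ℤ, ∑ j ∈ s, dk ((j : ℤ) - c) ≤ SS := fun c =>
    sum_inj dk_summable dk_nonneg s (fun j => (j : ℤ) - c) (fun a b hab => by
      simp only at hab
      omega)
  have a := h1 ((2 * i * 2 ^ m / 2 ^ (n + 1) : ℕ) : ℤ)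
  have b := h1 (((2 * i + 1) * 2 ^ m / 2 ^ (n + 1) : ℕ) : ℤ)
  have c := h1 (((2 * i + 2) * 2 ^ m / 2 ^ (n + 1) : ℕ) : ℤ)
  linarith

theorem fl (n m c j : ℕ) (h : m ≤ n) :
    (2 * j + c) * 2 ^ n / 2 ^ (m + 1) = j * 2 ^ (n - m) + c * 2 ^ n / 2 ^ (m + 1) := by
  have e : (2 * j + c) * 2 ^ n = c * 2 ^ n + (j * 2 ^ (n - m)) * 2 ^ (m + 1) := by
    have : 2 ^ n = 2 ^ (n - m) * 2 ^ m := by rw [← pow_add]; congr 1; omega
    rw [pow_succ, add_mul]
    nth_rw 1 [this]
    ring
  rw [e, Nat.add_mul_div_right _ _ (by positivity), add_comm]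

theorem row2 (n i m : ℕ) (h : m ≤ n) (s : Finset ℕ) :
    ∑ j ∈ s, ub m j n i ≤ gg ((m : ℤ) - n) * (3 * SS) := by
  unfold ub
  rw [← Finset.mul_sum, geo m n h]
  have e : gg ((m : ℤ) - n) = r ^ (n - m) := by
    unfold gg
    congr 1
    omega
  rw [e]
  apply mul_le_mul_of_nonneg_left _ (pow_nonneg r_pos.le _)
  rw [Finset.sum_add_distrib, Finset.sum_add_distrib]
  have h1 : ∀ c : ℕ, ∑ j ∈ s, dk ((i : ℤ) - (((2 * j + c) * 2 ^ n / 2 ^ (m + 1) : ℕ) : ℤ)) ≤ SS :=
    fun c => sum_inj dk_summable dk_nonneg s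
      (fun j => (i : ℤ) - (((2 * j + c) * 2 ^ n / 2 ^ (m + 1) : ℕ) : ℤ)) (fun a b hab => by
      simp only [fl n m c _ h] at hab
      have h2 : a * 2 ^ (n - m) = b * 2 ^ (n - m) := by omega
      exact Nat.eq_of_mul_eq_mul_right (by positivity) h2)
  have a := h1 0
  have b := h1 1
  have c := h1 2
  simp only [add_zero] at a
  linarith

theorem total (N n : ℕ) : ∑ m ∈ Finset.range N, gg ((m : ℤ) - n) * (3 * SS) ≤
    (∑' k, gg k) * (3 * SS) + 1 := by
  rw [← Finset.sum_mul]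
  have h := sum_inj gg_summable gg_nonneg (Finset.range N) (fun m => (m : ℤ) - n)
    (fun a b hab => by
      simp only at hab
      omega)
  have h2 := mul_le_mul_of_nonneg_right h (by have := SS_nonneg; positivity : 0 ≤ 3 * SS)
  linarith

theorem taskRows : TaskRows := by
  refine ⟨(∑' k, gg k) * (3 * SS) + 1, ?_, ?_⟩
  · have h1 : 0 ≤ ∑' k, gg k := tsum_nonneg gg_nonneg
    have h2 := SS_nonneg
    positivity
  intro N n i _
  constructor
  · refine le_trans (Finset.sum_le_sum fun m _ => ?_) (total N n)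
    unfold us
    by_cases h : n ≤ m
    · simp only [if_pos h]
      exact row1 n i m h _
    · simp only [if_neg h]
      exact row2 n i m (by omega) _
  · refine le_trans (Finset.sum_le_sum fun m _ => ?_) (total N n)
    unfold us
    by_cases h : m ≤ n
    · simp only [if_pos h]
      exact row2 n i m h _
    · simp only [if_neg h]
      exact row1 n i m (by omega) _

end Pool.Agent.H87R3.Cau
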